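import Pool.Agent.Helper47.ME.Goals

/-!
# The equality case of Makai's conjecture in dimension 3: standard position (packet ME-STD)
-/

open MeasureTheory Set Filter Topology
open scoped ENNReal Quaternion
open Pool.Agent.Helper47.AQ
open Pool.Agent.Helper72.MK
open Pool.Agent.Helper47.ME

noncomputable section

namespace Pool.Agent.Helper49.ME

theorem sec_dpol (K : Set (Fin 3 → ℝ)) (i : Fin 3) : sec i (dpol K) = dpol (pr i K) := by
  have key : ∀ (q : Fin 2 → ℝ) (x y : Fin 3 → ℝ),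
      ∑ k, (i.insertNth (0 : ℝ) q : Fin 3 → ℝ) k * (x k - y k) =
        ∑ j, q j * (x (i.succAbove j) - y (i.succAbove j)) := by
    intro q x y
    rw [Fin.sum_univ_succAbove _ i]
    simp
  ext q
  constructor
  · intro hq x hx y hy
    obtain ⟨x', hx', rfl⟩ := hx
    obtain ⟨y', hy', rfl⟩ := hy
    have h1 := hq x' hx' y' hy'
    rw [key] at h1
    exact h1
  · intro hq x hx y hy
    rw [key]
    exact hq _ ⟨x, hx, rfl⟩ _ ⟨y, hy, rfl⟩

theorem wd_neg (K : Set (Fin 3 → ℝ)) (p : Fin 3 → ℝ) : wd K (-p) = wd K p := by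
  unfold wd
  rw [neg_neg, add_comm]

theorem std (h1 : GEOEStmt) (h2 : PLEStmt) (h3 : G1Stmt) (h4 : BODYStmt) (h5 : WDMStmt)
    (h6 : FACEStmt) (h7 : TETStmt) : STDStmt := by
  intro K hK hF hq a b c y ha hb c1 c2 c3 c4 hy hip
  obtain ⟨hB0, hB1, hF0, hF1⟩ := h1 K hK hF a b c ha hb c1 c2 c3 c4
  have hs0 : IsSimplex (pr 0 K) := h2 _ hB0 hF0
  have hs1 : IsSimplex (pr 1 K) := h2 _ hB1 hF1
  have hV := hK.dpol_pos
  have hα : 0 < (volume (sec 0 (dpol K))).toReal := by
    rw [sec_dpol]; exact hB0.dpol_pos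
  have hβ : 0 < (volume (sec 1 (dpol K))).toReal := by
    rw [sec_dpol]; exact hB1.dpol_pos
  have hG := h3 (dpol K) (h4 _ K hK).1 (h4 _ K hK).2 hq y hy
  have he : y 0 * (volume (sec 0 (dpol K))).toReal + y 1 * (volume (sec 1 (dpol K))).toReal =
      3 / 2 * (volume (dpol K)).toReal := by
    have e1 : y 0 * a + y 1 * b = 1 := by
      have := hip
      simp only [ip, Fin.sum_univ_three, Matrix.cons_val_zero, Matrix.cons_val_one,
        Matrix.cons_val_two, Matrix.head_cons, Matrix.tail_cons, Matrix.cons_val] at this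
      linarith
    rw [ha, hb] at e1
    field_simp at e1
    linarith
  have hy0 : 0 ≤ y 0 := by
    by_contra hneg
    push Not at hneg
    have a1 : |y 0| = -y 0 := abs_of_neg hneg
    have a2 : y 1 ≤ |y 1| := le_abs_self _
    rw [a1] at hG
    nlinarith
  have hy1 : 0 ≤ y 1 := by
    by_contra hneg
    push Not at hneg
    have a1 : |y 1| = -y 1 := abs_of_neg hneg
    have a2 : y 0 ≤ |y 0| := le_abs_self _
    rw [a1] at hG
    nlinarith
  obtain ⟨ε, hε, hle⟩ := hK.le_wd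
  have hw : 0 < wd K (Pi.single 2 1) := by
    refine lt_of_lt_of_le ?_ (hle _)
    refine mul_pos hε ?_
    simp [Fin.sum_univ_three]
  set t : ℝ := (wd K (Pi.single 2 1))⁻¹ with ht
  have htp : 0 < t := inv_pos.2 hw
  have e1 : (Pi.single 2 t : Fin 3 → ℝ) = t • Pi.single 2 1 := by
    rw [← Pi.single_smul]; simp
  have hw1 : wd K (Pi.single 2 t) = 1 := by
    rw [e1, hK.wd_smul t htp, ht, inv_mul_cancel₀ hw.ne']
  have hw2 : wd K (Pi.single 2 (-t)) = 1 := by
    rw [Pi.single_neg, wd_neg, hw1]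
  have g1 := h5 K hK hq y hy hy0 hy1 he t hw1
  have g2 := h5 K hK hq y hy hy0 hy1 he (-t) hw2
  have hwy : wd K y ≤ 1 := by
    rw [hK.dpol_eq] at hy
    exact hy
  obtain ⟨f1, f2⟩ := h6 K hK y hwy t htp hw1 g1 g2
  exact h7 K hK hs0 hs1 f1 f2

end Pool.Agent.Helper49.ME
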